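import Pool.Agent.W425.BF.Stm

set_option autoImplicit false

/-! Project BF, part FIB: summation over the fibres in one direction. -/

namespace Pool.Agent.W204.BF

open Pool.Agent.W426.SM (gord face IsRay)
open Pool.Agent.W803.SM (filt summable_half gord_le exists_gord mem_filt)
open Pool.Agent.W425.BF
open Filter Topology

theorem norm_W2 {n : ℕ} {p : ℕ} (hp : 2 ≤ p) (c : Fin n → ℕ) (N : ℕ) {z t : ℂ} (hz : ‖z‖ ≤ 1)
    (ht : ‖t‖ ≤ 1) (u : Fin n → ℕ) : ‖W2 p c N z t u‖ ≤ ∏ x, ((1 : ℝ) / 2) ^ u x := by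
  unfold W2
  rw [norm_mul, norm_mul, norm_pow, norm_pow, norm_pow, norm_inv, Complex.norm_natCast]
  have h1 : ((p : ℝ)⁻¹) ^ (∑ x, u x) ≤ ((1 : ℝ) / 2) ^ (∑ x, u x) := by
    have hp2 : (2 : ℝ) ≤ p := by exact_mod_cast hp
    apply pow_le_pow_left₀ (by positivity)
    rw [one_div]
    exact inv_anti₀ (by norm_num) hp2
  have h2 : ‖z‖ ^ (∑ x, c x * u x) ≤ 1 := pow_le_one₀ (norm_nonneg _) hz
  have h3 : ‖t‖ ^ N ≤ 1 := pow_le_one₀ (norm_nonneg _) ht
  rw [Finset.prod_pow_eq_pow_sum]
  calc (p : ℝ)⁻¹ ^ (∑ x, u x) * ‖z‖ ^ (∑ x, c x * u x) * ‖t‖ ^ N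
      ≤ ((1 : ℝ) / 2) ^ (∑ x, u x) * 1 * 1 := by gcongr
    _ = _ := by ring

theorem summ {n : ℕ} {p : ℕ} (hp : 2 ≤ p) (c : Fin n → ℕ) (N : (Fin n → ℕ) → ℕ) {z t : ℂ}
    (hz : ‖z‖ ≤ 1) (ht : ‖t‖ ≤ 1) (b : (Fin n → ℕ) → ℂ) (C : ℝ) (hb : ∀ u, ‖b u‖ ≤ C)
    (S : Set (Fin n → ℕ)) :
    Summable (S.indicator fun u => W2 p c (N u) z t u * b u) := by
  have hC : 0 ≤ C := le_trans (norm_nonneg _) (hb 0)
  refine Summable.of_norm_bounded (g := fun u => (∏ x, ((1 : ℝ) / 2) ^ u x) * C)
    (summable_half.mul_right C) fun u => ?_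
  by_cases hu : u ∈ S
  · rw [Set.indicator_of_mem hu, norm_mul]
    exact mul_le_mul (norm_W2 hp c (N u) hz ht u) (hb u) (norm_nonneg _) (by positivity)
  · rw [Set.indicator_of_notMem hu, norm_zero]
    positivity

theorem sum_upd {n : ℕ} (u' : Fin n → ℕ) (i : Fin n) (a : ℕ) (φ : Fin n → ℤ) :
    ∑ x, φ x * ((Function.update u' i a x : ℕ) : ℤ) =
      φ i * a + ∑ x ∈ Finset.univ.erase i, φ x * (u' x : ℤ) := by
  rw [← Finset.add_sum_erase _ _ (Finset.mem_univ i), Function.update_self]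
  congr 1
  refine Finset.sum_congr rfl fun x hx => ?_
  rw [Function.update_of_ne (Finset.ne_of_mem_erase hx)]

theorem sum_updN {n : ℕ} (u' : Fin n → ℕ) (i : Fin n) (a : ℕ) (φ : Fin n → ℕ) :
    ∑ x, Function.update u' i a x * φ x =
      a * φ i + ∑ x ∈ Finset.univ.erase i, u' x * φ x := by
  rw [← Finset.add_sum_erase _ _ (Finset.mem_univ i), Function.update_self]
  congr 1
  refine Finset.sum_congr rfl fun x hx => ?_
  rw [Function.update_of_ne (Finset.ne_of_mem_erase hx)]

theorem mem_PA {n k : ℕ} (m : Fin k → Fin n → ℕ) (i : Fin n) (j0 : Fin k) (hj0 : m j0 i = 1)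
    (u' : Fin n → ℕ) (a : ℕ) (s : Fin k → ℕ)
    (hs : ∀ l, s l = ∑ x ∈ Finset.univ.erase i, u' x * m l x) :
    Function.update u' i a ∈ PA m i j0 ↔
      (∀ j, j ≠ j0 → 1 ≤ m j i → a + s j0 + 1 ≤ a * m j i + s j) ∧
      (∀ j l, j ≠ j0 → 1 ≤ m j i → m l i = 0 →
        (1 : ℤ) ≤ ((m j i : ℤ) - 1) * ((s l : ℤ) - s j0) + ((s j : ℤ) - s j0)) ∧
      (∀ l, m l i = 0 → s j0 ≤ s l) := by
  have H2 : ∀ j l : Fin k, ∑ x ∈ Finset.univ.erase i, ((m j x : ℤ) - m l x) * (u' x : ℤ) =
      (s j : ℤ) - s l := by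
    intro j l
    rw [hs, hs]
    push_cast
    rw [← Finset.sum_sub_distrib]
    refine Finset.sum_congr rfl fun x _ => ?_
    ring
  have V1 : ∀ j, j ≠ j0 → 1 ≤ m j i →
      ∑ x, cf m i j0 (Sum.inl j) x * ((Function.update u' i a x : ℕ) : ℤ) =
        ((m j i : ℤ) - 1) * a + ((s j : ℤ) - s j0) := by
    intro j h1 h2
    have e : cf m i j0 (Sum.inl j) = fun x => (m j x : ℤ) - m j0 x := by
      funext x
      simp only [cf, h1, h2, ne_eq, not_false_eq_true, and_self, if_true]
    rw [e, sum_upd, H2, hj0]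
    push_cast
    ring
  have V2 : ∀ j l, j ≠ j0 → 1 ≤ m j i → m l i = 0 →
      ∑ x, cf m i j0 (Sum.inr (Sum.inl (j, l))) x * ((Function.update u' i a x : ℕ) : ℤ) =
        ((m j i : ℤ) - 1) * ((s l : ℤ) - s j0) + ((s j : ℤ) - s j0) := by
    intro j l h1 h2 h3
    have e : cf m i j0 (Sum.inr (Sum.inl (j, l))) = fun x => if x = i then 0 else
        ((m j i : ℤ) - 1) * ((m l x : ℤ) - m j0 x) + ((m j x : ℤ) - m j0 x) := by
      funext x
      simp only [cf, h1, h2, h3, ne_eq, not_false_eq_true, and_self, if_true]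
    rw [e, sum_upd, if_pos rfl, zero_mul, zero_add, ← H2 l j0, ← H2 j j0, Finset.mul_sum,
      ← Finset.sum_add_distrib]
    refine Finset.sum_congr rfl fun x hx => ?_
    rw [if_neg (Finset.ne_of_mem_erase hx)]
    ring
  have V3 : ∀ l, m l i = 0 →
      ∑ x, cf m i j0 (Sum.inr (Sum.inr l)) x * ((Function.update u' i a x : ℕ) : ℤ) =
        (s l : ℤ) - s j0 := by
    intro l h3
    have e : cf m i j0 (Sum.inr (Sum.inr l)) = fun x => if x = i then 0 else
        (m l x : ℤ) - m j0 x := by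
      funext x
      simp only [cf, h3, if_true]
    rw [e, sum_upd, if_pos rfl, zero_mul, zero_add, ← H2 l j0]
    refine Finset.sum_congr rfl fun x hx => ?_
    rw [if_neg (Finset.ne_of_mem_erase hx)]
  constructor
  · intro h
    refine ⟨fun j h1 h2 => ?_, fun j l h1 h2 h3 => ?_, fun l h3 => ?_⟩
    · have := h (Sum.inl j)
      rw [V1 j h1 h2] at this
      simp only [cd, h1, h2, ne_eq, not_false_eq_true, and_self, if_true] at this
      zify
      linarith
    · have := h (Sum.inr (Sum.inl (j, l)))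
      rw [V2 j l h1 h2 h3] at this
      simpa only [cd, h1, h2, h3, ne_eq, not_false_eq_true, and_self, if_true] using this
    · have := h (Sum.inr (Sum.inr l))
      rw [V3 l h3] at this
      simp only [cd] at this
      omega
  · rintro ⟨h1, h2, h3⟩ q
    rcases q with j | ⟨⟨j, l⟩ | l⟩
    · by_cases hc : j ≠ j0 ∧ 1 ≤ m j i
      · rw [V1 j hc.1 hc.2]
        have := h1 j hc.1 hc.2
        simp only [cd, hc, ne_eq, not_false_eq_true, and_self, if_true]
        zify at this
        linarith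
      · have e : cf m i j0 (Sum.inl j) = fun x => 0 := by
          funext x
          simp only [cf]
          rw [if_neg hc]
        rw [e]
        simp only [cd]
        rw [if_neg hc]
        simp
    · by_cases hc : j ≠ j0 ∧ 1 ≤ m j i ∧ m l i = 0
      · rw [V2 j l hc.1 hc.2.1 hc.2.2]
        have := h2 j l hc.1 hc.2.1 hc.2.2
        simp only [cd]
        rw [if_pos hc]
        exact this
      · have e : cf m i j0 (Sum.inr (Sum.inl (j, l))) = fun x => 0 := by
          funext x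
          simp only [cf]
          rw [if_neg hc]
        rw [e]
        simp only [cd]
        rw [if_neg hc]
        simp
    · by_cases hc : m l i = 0
      · rw [V3 l hc]
        have := h3 l hc
        simp only [cd]
        omega
      · have e : cf m i j0 (Sum.inr (Sum.inr l)) = fun x => 0 := by
          funext x
          simp only [cf]
          rw [if_neg hc]
        rw [e]
        simp [cd]

theorem gf {n k : ℕ} (m : Fin k → Fin n → ℕ) (u : Fin n → ℕ) (w : Fin k → ℕ)
    (hw : ∀ l, ∑ x, u x * m l x = w l) (v : ℕ) (τ : Finset (Fin k)) (hτ : τ.Nonempty)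
    (h1 : ∀ l ∈ τ, w l = v) (h2 : ∀ l, l ∉ τ → v < w l) : gord m u = v ∧ filt m u = τ := by
  obtain ⟨l0, hl0⟩ := hτ
  have hk : 0 < k := Fin.pos l0
  have hv : gord m u = v := by
    apply le_antisymm
    · have := gord_le m u l0
      rw [hw, h1 l0 hl0] at this
      exact this
    · obtain ⟨j, hj⟩ := exists_gord hk m u
      rw [hw] at hj
      rw [← hj]
      by_cases hjt : j ∈ τ
      · exact (h1 j hjt).ge
      · exact (h2 j hjt).le
  refine ⟨hv, ?_⟩
  ext l
  rw [mem_filt, hw, hv]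
  constructor
  · intro h
    by_contra hl
    exact absurd h (h2 l hl).ne'
  · exact h1 l

/-- telescoping -/
theorem tele {f T : ℕ → ℂ} (C : ℂ) (hf : Summable f) (h : ∀ a, f a = C * (T a - T (a + 1)))
    (hT : Tendsto T atTop (𝓝 0)) : ∑' a, f a = C * T 0 := by
  have h1 := hf.hasSum.tendsto_sum_nat
  have h2 : (fun N => ∑ a ∈ Finset.range N, f a) = fun N => C * (T 0 - T N) := by
    funext N
    rw [Finset.sum_congr rfl fun a _ => h a, ← Finset.mul_sum, Finset.sum_range_sub']
  rw [h2] at h1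
  have h3 : Tendsto (fun N => C * (T 0 - T N)) atTop (𝓝 (C * (T 0 - 0))) :=
    (tendsto_const_nhds.sub hT).const_mul C
  rw [sub_zero] at h3
  exact tendsto_nhds_unique h1 h3

theorem fibre {n k : ℕ} (m : Fin k → Fin n → ℕ) (i : Fin n) (j0 : Fin k) (hj0 : m j0 i = 1)
    (p : ℕ) (hp : 2 ≤ p) (c : Fin n → ℕ) (hc : c i = 0) (E : ℂ)
    (γ : Finset (Fin k) → Polynomial ℂ) (hR : Rel m i p E γ)
    (z t : ℂ) (ht : ‖t‖ ≤ 1) (u' : Fin n → ℕ)
    (hF : Summable fun a : ℕ => (PA m i j0).indicator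
      (fun u => W2 p c (gord m u) z t u * (γ (filt m u)).eval t) (Function.update u' i a))
    (hG : Summable fun a : ℕ => (PA m i j0).indicator
      (fun u => W2 p c (∑ x, u x * m j0 x) z t u) (Function.update u' i a)) :
    ∑' a : ℕ, (PA m i j0).indicator
      (fun u => W2 p c (gord m u) z t u * (γ (filt m u)).eval t) (Function.update u' i a) =
    E * (1 - (p : ℂ)⁻¹ * t) * ∑' a : ℕ, (PA m i j0).indicator
      (fun u => W2 p c (∑ x, u x * m j0 x) z t u) (Function.update u' i a) := by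
  classical
  obtain ⟨s, hs⟩ : ∃ s : Fin k → ℕ, ∀ l, s l = ∑ x ∈ Finset.univ.erase i, u' x * m l x :=
    ⟨_, fun l => rfl⟩
  have hmem := fun a => mem_PA m i j0 hj0 u' a s hs
  have hwt : ∀ a l, ∑ x, Function.update u' i a x * m l x = a * m l i + s l := by
    intro a l
    rw [sum_updN, hs]
  obtain ⟨C1, hC1⟩ : ∃ C1 : ℂ, ∀ a N, W2 p c N z t (Function.update u' i a) =
      C1 * (p : ℂ)⁻¹ ^ a * t ^ N := by
    refine ⟨(p : ℂ)⁻¹ ^ (∑ x ∈ Finset.univ.erase i, u' x) *
      z ^ (∑ x ∈ Finset.univ.erase i, c x * u' x), fun a N => ?_⟩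
    unfold W2
    have e1 : ∑ x, Function.update u' i a x = a + ∑ x ∈ Finset.univ.erase i, u' x := by
      have := sum_updN u' i a (fun _ => 1)
      simpa using this
    have e2 : ∑ x, c x * Function.update u' i a x =
        ∑ x ∈ Finset.univ.erase i, c x * u' x := by
      have := sum_updN u' i a c
      rw [hc, mul_zero, zero_add] at this
      rw [Finset.sum_congr rfl fun x _ => mul_comm (c x) _, this]
      exact Finset.sum_congr rfl fun x _ => mul_comm _ _
    rw [e1, e2, pow_add]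
    ring
  have hγ0 : (γ {j0}).eval t = E * (1 - (p : ℂ)⁻¹ * t) := by
    rw [hR.1 j0 hj0]
    simp
  by_cases hP : (∀ j l, j ≠ j0 → 1 ≤ m j i → m l i = 0 →
        (1 : ℤ) ≤ ((m j i : ℤ) - 1) * ((s l : ℤ) - s j0) + ((s j : ℤ) - s j0)) ∧
      (∀ l, m l i = 0 → s j0 ≤ s l)
  swap
  · have hn : ∀ a, Function.update u' i a ∉ PA m i j0 := fun a h => hP ((hmem a).1 h).2
    have e1 : ∀ (f : (Fin n → ℕ) → ℂ) (a : ℕ),
        (PA m i j0).indicator f (Function.update u' i a) = 0 :=
      fun f a => Set.indicator_of_notMem (hn a) f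
    simp only [e1, tsum_zero, mul_zero]
  obtain ⟨hP2, hP3⟩ := hP
  by_cases hl : ∃ l, m l i = 0
  swap
  · rw [← tsum_mul_left]
    congr 1
    funext a
    by_cases ha : Function.update u' i a ∈ PA m i j0
    · rw [Set.indicator_of_mem ha, Set.indicator_of_mem ha]
      have h1 := ((hmem a).1 ha).1
      obtain ⟨hg, hfi⟩ := gf m (Function.update u' i a) _ (hwt a) (a + s j0) {j0}
        (Finset.singleton_nonempty _)
        (fun l hl' => by rw [Finset.mem_singleton] at hl'; rw [hl', hj0, mul_one])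
        (fun l hl' => by
          rw [Finset.mem_singleton] at hl'
          have : 1 ≤ m l i := Nat.one_le_iff_ne_zero.2 fun h => hl ⟨l, h⟩
          have := h1 l hl' this
          omega)
      rw [hg, hfi, hγ0, hwt, hj0, mul_one]
      ring
    · rw [Set.indicator_of_notMem ha, Set.indicator_of_notMem ha, mul_zero]
  -- main case
  obtain ⟨ls, hls0, hlsmin⟩ : ∃ ls, m ls i = 0 ∧ ∀ l, m l i = 0 → s ls ≤ s l := by
    obtain ⟨l1, hl1⟩ := hl
    obtain ⟨x, hx, hx'⟩ := Finset.exists_min_image (Finset.univ.filter fun l => m l i = 0) s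
      ⟨l1, by simp [hl1]⟩
    exact ⟨x, (Finset.mem_filter.1 hx).2, fun l h => hx' l (by simp [h])⟩
  obtain ⟨K, hK⟩ : ∃ K, s ls = s j0 + K := Nat.exists_eq_add_of_le (hP3 ls hls0)
  have hP1K : ∀ j, j ≠ j0 → 1 ≤ m j i → K + s j0 + 1 ≤ K * m j i + s j := by
    intro j h1 h2
    have := hP2 j ls h1 h2 hls0
    rw [hK] at this
    push_cast at this
    zify
    linarith
  have hmono : ∀ a b, a ≤ b → (∀ j, j ≠ j0 → 1 ≤ m j i → a + s j0 + 1 ≤ a * m j i + s j) →
      (∀ j, j ≠ j0 → 1 ≤ m j i → b + s j0 + 1 ≤ b * m j i + s j) := by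
    intro a b hab h j h1 h2
    obtain ⟨d, rfl⟩ := Nat.exists_eq_add_of_le hab
    have h3 := h j h1 h2
    have h4 : d ≤ d * m j i := Nat.le_mul_of_pos_right d h2
    rw [add_mul]
    omega
  obtain ⟨K0, hK0, hK0K⟩ : ∃ K0, (∀ a, Function.update u' i a ∈ PA m i j0 ↔ K0 ≤ a) ∧
      K0 ≤ K := by
    have hex : ∃ a, ∀ j, j ≠ j0 → 1 ≤ m j i → a + s j0 + 1 ≤ a * m j i + s j := ⟨K, hP1K⟩
    refine ⟨Nat.find hex, fun a => ?_, Nat.find_min' hex hP1K⟩
    rw [hmem a]
    constructor
    · intro h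
      exact Nat.find_min' hex h.1
    · intro h
      exact ⟨hmono _ _ h (Nat.find_spec hex), hP2, hP3⟩
  obtain ⟨τ0, hτ0⟩ : ∃ τ0 : Finset (Fin k), ∀ l, l ∈ τ0 ↔ m l i = 0 ∧ s l = s j0 + K :=
    ⟨Finset.univ.filter fun l => m l i = 0 ∧ s l = s j0 + K, fun l => by simp⟩
  have hτne : τ0.Nonempty := ⟨ls, (hτ0 ls).2 ⟨hls0, hK⟩⟩
  have hj0τ : j0 ∉ τ0 := fun h => by
    have := ((hτ0 j0).1 h).1
    omega
  have hrel := congrArg (Polynomial.eval t) (hR.2 j0 τ0 hj0 (fun l h => ((hτ0 l).1 h).1) hτne)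
  simp only [Polynomial.eval_add, Polynomial.eval_mul, Polynomial.eval_C] at hrel
  obtain ⟨g1, hg1⟩ : ∃ g1, g1 = (γ (insert j0 τ0)).eval t := ⟨_, rfl⟩
  obtain ⟨g2, hg2⟩ : ∃ g2, g2 = (γ τ0).eval t := ⟨_, rfl⟩
  rw [← hg1, ← hg2] at hrel
  have hp0 : (p : ℂ) ≠ 0 := by exact_mod_cast (by omega : p ≠ 0)
  have hp1 : (p : ℂ) - 1 ≠ 0 := by
    rw [sub_ne_zero]
    exact_mod_cast (by omega : p ≠ 1)
  obtain ⟨ρ, hρ⟩ : ∃ ρ : ℂ, ρ = (p : ℂ)⁻¹ := ⟨_, rfl⟩
  rw [← hρ] at hC1 hγ0 ⊢
  have hρ1 : 1 - ρ ≠ 0 := by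
    rw [hρ]
    intro h
    apply hp1
    field_simp at h
    simpa using h
  have hg1' : g1 = E - g2 * (ρ / (1 - ρ)) := by
    have e : ρ / (1 - ρ) = ((p : ℂ) - 1)⁻¹ := by
      rw [hρ]
      rw [hρ] at hρ1
      field_simp
    rw [e]
    field_simp
    linear_combination hrel
  have hρn : ‖ρ‖ < 1 := by
    rw [hρ, norm_inv, Complex.norm_natCast]
    have : (2 : ℝ) ≤ p := by exact_mod_cast hp
    exact inv_lt_one_of_one_lt₀ (by linarith)
  have hrn : ‖ρ * t‖ < 1 := by
    rw [norm_mul]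
    exact lt_of_le_of_lt (mul_le_of_le_one_right (norm_nonneg _) ht) hρn
  have hr1 : 1 - ρ * t ≠ 0 := by
    intro h
    have : ρ * t = 1 := by linear_combination -h
    rw [this, norm_one] at hrn
    exact lt_irrefl _ hrn
  -- the sum of F
  have hsumF := tele (T := fun a => if a ≤ K then E * (ρ * t) ^ (max a K0)
      else t ^ K * g2 * ρ ^ a / (1 - ρ)) (C1 * t ^ s j0) hF ?_ ?_
  rotate_left
  · intro a
    rcases lt_or_ge a K0 with h | h
    · rw [Set.indicator_of_notMem (fun h' => absurd ((hK0 a).1 h') (not_le.2 h))]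
      rw [if_pos (by omega : a ≤ K), if_pos (by omega : a + 1 ≤ K), max_eq_right h.le,
        max_eq_right (by omega : a + 1 ≤ K0)]
      ring
    · rw [Set.indicator_of_mem ((hK0 a).2 h)]
      have h1 := ((hmem a).1 ((hK0 a).2 h)).1
      have hbig : ∀ l, m l i = 0 → l ∉ τ0 → s j0 + K < s l := by
        intro l h2 h3
        have h4 := hlsmin l h2
        rw [hK] at h4
        refine lt_of_le_of_ne h4 fun h5 => h3 ((hτ0 l).2 ⟨h2, h5.symm⟩)
      rcases lt_trichotomy a K with h2 | h2 | h2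
      · obtain ⟨hg, hfi⟩ := gf m (Function.update u' i a) _ (hwt a) (a + s j0) {j0}
          (Finset.singleton_nonempty _)
          (fun l hl' => by rw [Finset.mem_singleton] at hl'; rw [hl', hj0, mul_one])
          (fun l hl' => by
            rw [Finset.mem_singleton] at hl'
            rcases Nat.eq_zero_or_pos (m l i) with h5 | h5
            · have h6 := hlsmin l h5
              rw [h5, mul_zero]
              omega
            · have := h1 l hl' h5
              omega)
        rw [hg, hfi, hγ0, hC1, if_pos h2.le, if_pos (by omega : a + 1 ≤ K), max_eq_left h,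
          max_eq_left (by omega : K0 ≤ a + 1), mul_pow, mul_pow, pow_add t a]
        ring
      · subst h2
        obtain ⟨hg, hfi⟩ := gf m (Function.update u' i a) _ (hwt a) (a + s j0) (insert j0 τ0)
          (Finset.insert_nonempty _ _)
          (fun l hl' => by
            rw [Finset.mem_insert] at hl'
            rcases hl' with h5 | h5
            · rw [h5, hj0, mul_one]
            · obtain ⟨h6, h7⟩ := (hτ0 l).1 h5
              rw [h6, h7]
              ring)
          (fun l hl' => by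
            rw [Finset.mem_insert, not_or] at hl'
            rcases Nat.eq_zero_or_pos (m l i) with h5 | h5
            · have h6 := hbig l h5 hl'.2
              rw [h5, mul_zero]
              omega
            · have := h1 l hl'.1 h5
              omega)
        rw [hg, hfi, ← hg1, hg1', hC1, if_pos le_rfl, if_neg (by omega : ¬ a + 1 ≤ a),
          max_eq_left h, mul_pow, pow_add t a, pow_succ ρ a]
        field_simp
      · obtain ⟨hg, hfi⟩ := gf m (Function.update u' i a) _ (hwt a) (K + s j0) τ0 hτne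
          (fun l h5 => by
            obtain ⟨h6, h7⟩ := (hτ0 l).1 h5
            rw [h6, h7]
            ring)
          (fun l hl' => by
            rcases Nat.eq_zero_or_pos (m l i) with h5 | h5
            · have h6 := hbig l h5 hl'
              rw [h5, mul_zero]
              omega
            · by_cases h6 : l = j0
              · rw [h6, hj0, mul_one]
                omega
              · have := h1 l h6 h5
                omega)
        rw [hg, hfi, ← hg2, hC1, if_neg (by omega : ¬ a ≤ K), if_neg (by omega : ¬ a + 1 ≤ K),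
          pow_add t K, pow_succ ρ a]
        field_simp
  · have h1 : Tendsto (fun a : ℕ => t ^ K * g2 * ρ ^ a / (1 - ρ)) atTop (𝓝 0) := by
      have h2 := ((tendsto_pow_atTop_nhds_zero_of_norm_lt_one hρn).const_mul
        (t ^ K * g2)).div_const (1 - ρ)
      simpa using h2
    refine h1.congr' ?_
    filter_upwards [eventually_gt_atTop K] with a ha
    rw [if_neg (not_le.2 ha)]
  have hsumG := tele (T := fun a => (ρ * t) ^ (max a K0) / (1 - ρ * t)) (C1 * t ^ s j0) hG ?_ ?_
  rotate_left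
  · intro a
    rcases lt_or_ge a K0 with h | h
    · rw [Set.indicator_of_notMem (fun h' => absurd ((hK0 a).1 h') (not_le.2 h))]
      rw [max_eq_right h.le, max_eq_right (by omega : a + 1 ≤ K0)]
      ring
    · rw [Set.indicator_of_mem ((hK0 a).2 h), hC1, hwt, hj0, mul_one, max_eq_left h,
        max_eq_left (by omega : K0 ≤ a + 1), pow_succ (ρ * t) a, pow_add t a, mul_pow]
      field_simp
  · have h1 : Tendsto (fun a : ℕ => (ρ * t) ^ a / (1 - ρ * t)) atTop (𝓝 0) := by
      have h2 := (tendsto_pow_atTop_nhds_zero_of_norm_lt_one hrn).div_const (1 - ρ * t)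
      simpa using h2
    refine h1.congr' ?_
    filter_upwards [eventually_ge_atTop K0] with a ha
    rw [max_eq_left ha]
  rw [hsumF, hsumG, if_pos (Nat.zero_le K), max_eq_right (Nat.zero_le K0)]
  field_simp

/-- (FIB) -/
theorem main : TaskFIB := by
  classical
  intro n k m i j0 hj0 p hp c hc E γ hR z t hz ht
  rw [tsum_subtype (PA m i j0) (fun u => W2 p c (gord m u) z t u * (γ (filt m u)).eval t),
    tsum_subtype (PA m i j0) (fun u => W2 p c (∑ x, u x * m j0 x) z t u)]
  have hSF : Summable ((PA m i j0).indicator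
      (fun u => W2 p c (gord m u) z t u * (γ (filt m u)).eval t)) := by
    refine summ hp c (gord m) hz ht (fun u => (γ (filt m u)).eval t)
      (∑ τ : Finset (Fin k), ‖(γ τ).eval t‖) (fun u => ?_) (PA m i j0)
    exact Finset.single_le_sum (f := fun τ : Finset (Fin k) => ‖(γ τ).eval t‖)
      (fun τ _ => norm_nonneg _) (Finset.mem_univ _)
  have hSG : Summable ((PA m i j0).indicator
      (fun u => W2 p c (∑ x, u x * m j0 x) z t u)) := by
    have := summ hp c (fun u => ∑ x, u x * m j0 x) hz ht (fun _ => 1) 1 (fun _ => by simp)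
      (PA m i j0)
    simpa using this
  obtain ⟨e, he⟩ : ∃ e : (({j : Fin n // j ≠ i} → ℕ) × ℕ) ≃ (Fin n → ℕ),
      ∀ v a, e (v, a) = Function.update (fun x => if h : x = i then 0 else v ⟨x, h⟩) i a := by
    refine ⟨(Equiv.prodComm _ _).trans (Equiv.funSplitAt i ℕ).symm, fun v a => ?_⟩
    funext x
    by_cases hx : x = i
    · subst hx
      simp [Equiv.funSplitAt, Equiv.piSplitAt]
    · simp [Equiv.funSplitAt, Equiv.piSplitAt, hx]
  rw [← e.tsum_eq, ← e.tsum_eq]
  have hSF' := (e.summable_iff).2 hSF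
  have hSG' := (e.summable_iff).2 hSG
  have e1 := Summable.tsum_prod hSF'
  have e2 := Summable.tsum_prod hSG'
  simp only [Function.comp_def] at e1 e2
  rw [e1, e2, ← tsum_mul_left]
  congr 1
  funext v
  have f1 := hSF'.prod_factor v
  have f2 := hSG'.prod_factor v
  simp only [Function.comp_def, he] at f1 f2 ⊢
  exact fibre m i j0 hj0 p hp c hc E γ hR z t ht _ f1 f2

end Pool.Agent.W204.BF
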